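import Pool.Agent.PFC.StmtsB6
import Pool.Agent.Helper62_WRA.Fam

/-!
# Squad PFC, block B6, row FPS
-/

open scoped BigOperators

noncomputable section

namespace Pool.Agent.PFC.H24

open Pool.Agent.Helper51_AWC Pool.Agent.Helper79_WRA Pool.Agent.PP Pool.Agent.PP.KF
open Pool.Agent.PP.K9 Pool.Agent.PP.K9.H97 Pool.Agent.PP.H75 Pool.Agent.PP.T3 Pool.Agent.PP.T2
open Pool.Agent.PP.T8 (Fr rs pw)

attribute [local instance] Ideal.Quotient.field

/-- the bimodule action on the corner, as functions -/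
theorem cv_bi {F G W : Type} [Field F] [Group G] [Finite G] [Group W] {j : G → F}
    (hj : mulF j j = j) (ι : W →* G) (hv : ∀ w x, j (ι w * x * (ι w)⁻¹) = j x) (w : W × W)
    (a : Crn hj) (y : G) :
    cv (bi F (jal hj ι hv) w a) y = cv a ((ι w.1)⁻¹ * y * ι w.2) := by
  have h1 : bi F (jal hj ι hv) w a = jal hj ι hv w.1 * (a * jal hj ι hv w.2⁻¹) := rfl
  rw [h1, cv_mul, cv_mul, cv_jal, cv_jal, H20.mulF_assoc, ← H20.mulF_assoc j, cv_l,
    dl_comm (hv w.2⁻¹), ← H20.mulF_assoc (cv a), cv_r, mulF_dl_r, mulF_dl_l]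
  rw [map_inv, inv_inv]

theorem fps (hCPS : CpsStmt) (hFSN : FsnStmt) (hPSX : PsxStmt) : FpsStmt := by
  intro ℓ _ M _ hℓ G _ _ e V γ hLd j hJ W E _ _ _ ι hι hrange φ hφ hj hv
  have : CharP (FF M) ℓ := Pool.Agent.Helper79_WRA.H62.charP_FF hℓ
  have hmem : ∀ w, ι w ∈ V := fun w => by rw [← hrange]; exact ⟨w, rfl⟩
  have hW : IsPGroup ℓ W := by
    have h1 : IsPGroup ℓ V := hLd.tp.pg
    let ψ : W →* V := ι.codRestrict V hmem
    exact h1.of_injective ψ fun a b hab => hι (congrArg Subtype.val hab)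
  have hWW : IsPGroup ℓ (W × W) := by
    obtain ⟨n, hn⟩ := (IsPGroup.iff_card).1 hW
    exact (IsPGroup.iff_card).2 ⟨n + n, by rw [Nat.card_prod, hn, pow_add]⟩
  obtain ⟨h1, h2, _⟩ := hCPS ℓ (FF M) G W ι hι hW j hj hv
  obtain ⟨Ω, i1, i2, b, c, hfr, hst⟩ := hPSX ℓ (FF M) (W × W) (Crn hj) (bi (FF M) (jal hj ι hv)) _
    hWW (fun x y => mul_comm x y) h1
  refine ⟨Ω, i1, i2, b, c, hfr, fun ω => ?_⟩
  obtain ⟨⟨g, hg⟩, hne⟩ := hst ω
  set K := MulAction.stabilizer (W × W) ω with hK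
  obtain ⟨a, ha, hab⟩ := SetLike.not_le_iff_exists.1 hne
  rw [h2 K a ha] at hab
  push Not at hab
  obtain ⟨h, hh, hne0⟩ := hab
  -- the elements of `K`
  have hKm : ∀ u w : W, ι u = g * ι w * g⁻¹ → ((u, w) : W × W) ∈ K := by
    intro u w huw
    rw [hg]
    change ι u * g = g * ι w
    rw [huw, inv_mul_cancel_right]
  obtain ⟨t, ht, htv⟩ := hFSN ℓ M hℓ G e V γ hLd j hJ g (cv a) (cv_l hj a) (cv_r hj a) (by
    intro v hvV hgv y
    rw [← hrange] at hvV hgv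
    obtain ⟨w, rfl⟩ := hvV
    obtain ⟨u, hu⟩ := hgv
    have hfix : bi (FF M) (jal hj ι hv) (u, w) a = a := ha _ (hKm u w hu)
    have := cv_bi hj ι hv (u, w) a (g * ι w * g⁻¹ * y * (ι w)⁻¹)
    rw [hfix] at this
    rw [this]
    congr 1
    change (ι u)⁻¹ * (g * ι w * g⁻¹ * y * (ι w)⁻¹) * ι w = y
    rw [← hu]
    group) ⟨h, by
      intro v hvV hgv
      rw [← hrange] at hvV hgv
      obtain ⟨w, rfl⟩ := hvV
      obtain ⟨u, hu⟩ := hgv
      have := hh _ (hKm u w hu)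
      change ι u * h = h * ι w at this
      rw [← hu]
      exact this, hne0⟩
  obtain ⟨x, hx⟩ := hφ t ht
  refine ⟨x, Subgroup.comap ((MulAut.conj g).toMonoidHom.comp ι) V, ?_⟩
  ext ⟨u, w⟩
  rw [hg]
  change ι u * g = g * ι w ↔ _
  rw [tw, Subgroup.mem_map]
  have hR : ∀ r : W, r ∈ Subgroup.comap ((MulAut.conj g).toMonoidHom.comp ι) V ↔
      g * ι r * g⁻¹ ∈ V := fun r => Iff.rfl
  constructor
  · intro huw
    have h3 : ι u = g * ι w * g⁻¹ := by rw [← huw, mul_inv_cancel_right]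
    have h4 : g * ι w * g⁻¹ ∈ V := by rw [← h3]; exact hmem u
    refine ⟨w, (hR w).2 h4, ?_⟩
    have h5 : φ x w = u := by
      apply hι
      rw [hx, htv (ι w) (hmem w) h4, h3]
    exact Prod.ext h5 rfl
  · rintro ⟨r, hr, hrw⟩
    have h5 : φ x r = u := congrArg Prod.fst hrw
    have h6 : r = w := congrArg Prod.snd hrw
    subst h6
    rw [← h5, hx, htv (ι r) (hmem r) ((hR r).1 hr), inv_mul_cancel_right]

end Pool.Agent.PFC.H24
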