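import Pool.Agent.PFC.StmtsB5a

/-!
# Squad PFC, block B5a, row KWB
-/

open scoped BigOperators

noncomputable section

namespace Pool.Agent.PFC.B5a.H24

open Pool.Agent.PFC Pool.Agent.PFC.B5a

section entries

variable {R : Type} [CommRing R] {n : ℕ}

/-- all entries are in the ideal -/
def En (J : Ideal R) (x : Matrix (Fin n) (Fin n) R) : Prop := ∀ i j, x i j ∈ J

theorem En.add {J : Ideal R} {x y : Matrix (Fin n) (Fin n) R} (hx : En J x) (hy : En J y) :
    En J (x + y) := fun i j => J.add_mem (hx i j) (hy i j)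

theorem En.sub {J : Ideal R} {x y : Matrix (Fin n) (Fin n) R} (hx : En J x) (hy : En J y) :
    En J (x - y) := fun i j => J.sub_mem (hx i j) (hy i j)

theorem En.sum {J : Ideal R} {κ : Type} (s : Finset κ) (x : κ → Matrix (Fin n) (Fin n) R)
    (hx : ∀ k ∈ s, En J (x k)) : En J (∑ k ∈ s, x k) := by
  intro i j
  rw [Matrix.sum_apply]
  exact J.sum_mem fun k hk => hx k hk i j

theorem En.mul_left {J : Ideal R} (x : Matrix (Fin n) (Fin n) R) {y : Matrix (Fin n) (Fin n) R}
    (hy : En J y) : En J (x * y) := by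
  intro i j
  rw [Matrix.mul_apply]
  exact J.sum_mem fun k _ => J.mul_mem_left _ (hy k j)

theorem En.mul {J J' : Ideal R} {x y : Matrix (Fin n) (Fin n) R} (hx : En J x) (hy : En J' y) :
    En (J * J') (x * y) := by
  intro i j
  rw [Matrix.mul_apply]
  exact (J * J').sum_mem fun k _ => Ideal.mul_mem_mul (hx i k) (hy k j)

theorem En.mono {J J' : Ideal R} (h : J ≤ J') {x : Matrix (Fin n) (Fin n) R} (hx : En J x) :
    En J' x := fun i j => h (hx i j)

end entries

theorem kwb : KwbStmt := by
  intro F V B _ _ _ _ _ β n π k f hsep hk hLf h1 hl hr hI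
  obtain ⟨κ, _, u, v, huv, hcas⟩ := hsep
  set I := RingHom.ker (au F V) with hIdef
  -- the defect
  let w : B → B → Matrix (Fin n) (Fin n) (MonoidAlgebra F V) := fun x y => f (x * y) - f x * f y
  have hw : ∀ x y, w x y = f (x * y) - f x * f y := fun _ _ => rfl
  have hfw : ∀ x y, f (x * y) = w x y + f x * f y := fun x y => (sub_add_cancel _ _).symm
  have hwI : ∀ x y, En (I ^ k) (w x y) := hI
  have hcoc : ∀ a b c, w a (b * c) = w (a * b) c + w a b * f c - f a * w b c := by
    intro a b c
    rw [hw, hw, hw, hw, mul_assoc a b c, sub_mul, mul_sub, mul_assoc (f a)]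
    abel
  have hwl : ∀ g y a, w (β g * y) a = f (β g) * w y a := by
    intro g y a
    rw [hw, hw, mul_assoc (β g) y a, hl, hl, mul_sub, mul_assoc]
  have hwr : ∀ g y a, w y (a * β g) = w y a * f (β g) := by
    intro g y a
    rw [hw, hw, ← mul_assoc y a (β g), hr, hr, sub_mul, mul_assoc]
  have hwm : ∀ g y a, w y (β g * a) = w (y * β g) a := by
    intro g y a
    rw [hw, hw, ← mul_assoc y (β g) a, hl, hr, mul_assoc (f y) (f (β g)) (f a)]
  have hw1 : ∀ y, w y 1 = 0 := by
    intro y
    rw [hw, mul_one, h1, mul_one, sub_self]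
  -- the Casimir property
  have hC : ∀ a c, ∑ i, f (c * u i) * w (v i) a = ∑ i, f (u i) * w (v i * c) a := by
    intro a c
    let T : B →ₗ[F] B →ₗ[F] Matrix (Fin n) (Fin n) (MonoidAlgebra F V) :=
      LinearMap.mk₂ F (fun x y => f x * w y a)
        (by
          intro x x' y
          rw [map_add, add_mul])
        (by
          intro r x y
          rw [map_smul, smul_mul_assoc])
        (by
          intro x y y'
          rw [← mul_add]
          congr 1
          rw [hw, hw, hw, add_mul, map_add, map_add, add_mul]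
          abel)
        (by
          intro r x y
          rw [← mul_smul_comm]
          congr 1
          rw [hw, hw, smul_mul_assoc, map_smul, map_smul, smul_mul_assoc, smul_sub])
    have hT : ∀ x y, T x y = f x * w y a := fun x y => rfl
    have hb := hcas _ T (by
      intro x y g
      rw [hT, hT, hr, hwl, mul_assoc]) c
    simp only [hT] at hb
    exact hb
  -- the correction
  let ν : B →ₗ[F] Matrix (Fin n) (Fin n) (MonoidAlgebra F V) :=
    { toFun := fun a => ∑ i, f (u i) * w (v i) a
      map_add' := by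
        intro a a'
        rw [← Finset.sum_add_distrib]
        refine Finset.sum_congr rfl fun i _ => ?_
        rw [← mul_add]
        congr 1
        rw [hw, hw, hw, mul_add, map_add, map_add, mul_add]
        abel
      map_smul' := by
        intro r a
        rw [RingHom.id_apply, Finset.smul_sum]
        refine Finset.sum_congr rfl fun i _ => ?_
        rw [← mul_smul_comm]
        congr 1
        rw [hw, hw, mul_smul_comm, map_smul, map_smul, mul_smul_comm, smul_sub] }
  have hν : ∀ a, ν a = ∑ i, f (u i) * w (v i) a := fun _ => rfl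
  have hνI : ∀ a, En (I ^ k) (ν a) := by
    intro a
    rw [hν]
    exact En.sum _ _ fun i _ => En.mul_left _ (hwI _ _)
  have hν1 : ν 1 = 0 := by
    rw [hν]
    exact Finset.sum_eq_zero fun i _ => by rw [hw1, mul_zero]
  have hνr : ∀ g a, ν (a * β g) = ν a * f (β g) := by
    intro g a
    rw [hν, hν, Finset.sum_mul]
    exact Finset.sum_congr rfl fun i _ => by rw [hwr, mul_assoc]
  have hνβ : ∀ g, ν (β g) = 0 := by
    intro g
    have := hνr g 1
    rw [one_mul, hν1, zero_mul] at this
    exact this
  have hνl : ∀ g a, ν (β g * a) = f (β g) * ν a := by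
    intro g a
    rw [hν, hν, Finset.mul_sum]
    calc ∑ i, f (u i) * w (v i) (β g * a) = ∑ i, f (u i) * w (v i * β g) a :=
          Finset.sum_congr rfl fun i _ => by rw [hwm]
      _ = ∑ i, f (β g * u i) * w (v i) a := (hC a (β g)).symm
      _ = ∑ i, f (β g) * (f (u i) * w (v i) a) :=
          Finset.sum_congr rfl fun i _ => by rw [hl, mul_assoc]
  have hsum : ∑ i, f (u i) * f (v i) = 1 - ∑ i, w (u i) (v i) := by
    rw [eq_sub_iff_add_eq, ← Finset.sum_add_distrib]
    calc ∑ i, (f (u i) * f (v i) + w (u i) (v i)) = ∑ i, f (u i * v i) :=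
          Finset.sum_congr rfl fun i _ => by rw [hfw, add_comm]
      _ = 1 := by rw [← map_sum, huv, h1]
  have hνm : ∀ a b, ν (a * b) = f a * ν b + ∑ i, w a (u i) * w (v i) b + ν a * f b
      - w a b + (∑ i, w (u i) (v i)) * w a b := by
    intro a b
    have e1 : ∑ i, f (u i) * w (v i * a) b = f a * ν b + ∑ i, w a (u i) * w (v i) b := by
      rw [← hC b a, hν, Finset.mul_sum, ← Finset.sum_add_distrib]
      refine Finset.sum_congr rfl fun i _ => ?_
      rw [hfw a (u i), add_mul, mul_assoc, add_comm]
    have e2 : ν (a * b) = ∑ i, f (u i) * w (v i * a) b + ν a * f b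
        - (∑ i, f (u i) * f (v i)) * w a b := by
      rw [hν, hν, Finset.sum_mul, Finset.sum_mul, ← Finset.sum_add_distrib,
        ← Finset.sum_sub_distrib]
      refine Finset.sum_congr rfl fun i _ => ?_
      rw [hcoc, mul_sub, mul_add, mul_assoc, mul_assoc]
    rw [e2, e1, hsum, sub_mul, one_mul]
    abel
  have hf' : ∀ a, (f + ν) a = f a + ν a := fun _ => rfl
  have hdef : ∀ a b, (f + ν) (a * b) - (f + ν) a * (f + ν) b =
      ∑ i, w a (u i) * w (v i) b + (∑ i, w (u i) (v i)) * w a b - ν a * ν b := by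
    intro a b
    rw [hf', hf', hf', hνm, hfw a b, add_mul, mul_add, mul_add]
    abel
  have hkk : I ^ k * I ^ k ≤ I ^ (k + 1) := by
    rw [← pow_add]
    exact Ideal.pow_le_pow_right (by omega)
  refine ⟨f + ν, ⟨?_, ?_⟩, ?_, ?_, ?_, ?_⟩
  · intro x i j
    have h2 : (f + ν) x i j = f x i j + ν x i j := rfl
    have h3 : ν x i j ∈ I := Ideal.pow_le_self (by omega) (hνI x i j)
    rw [h2, map_add, hLf.aug, hIdef, RingHom.mem_ker] at *
    rw [h3, add_zero]
  · intro g i j
    rw [hf', hνβ, add_zero]
    exact hLf.grp g i j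
  · rw [hf', hν1, add_zero, h1]
  · intro g x
    rw [hf', hf', hf', hνβ, add_zero, hνl, hl, mul_add]
  · intro g x
    rw [hf', hf', hf', hνβ, add_zero, hνr, hr, add_mul]
  · intro x y
    rw [hdef]
    refine En.mono hkk (En.sub (En.add (En.sum _ _ fun i _ => ?_) ?_) ?_)
    · exact En.mul (hwI _ _) (hwI _ _)
    · exact En.mul (En.sum _ _ fun i _ => hwI _ _) (hwI _ _)
    · exact En.mul (hνI _) (hνI _)

end Pool.Agent.PFC.B5a.H24
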