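import Pool.Agent.PFC.StmtsB3

/-!
# Squad PFC, block B3, row LIN
-/

open scoped BigOperators

noncomputable section

namespace Pool.Agent.PFC.B3.H24

open Pool.Agent.PFC.B3

theorem lin : LinStmt := by
  intro F M _ _ _ _ A W U hWU hU
  obtain ⟨C0, hC0⟩ := exists_isCompl (A ⊓ W)
  have hA : (A ⊓ W) ⊔ C0 ⊓ A = A := by
    rw [← sup_inf_assoc_of_le C0 (inf_le_left : A ⊓ W ≤ A), hC0.sup_eq_top, top_inf_eq]
  have hCW : (C0 ⊓ A) ⊓ W = ⊥ := by
    have h := hC0.inf_eq_bot
    rw [eq_bot_iff, ← h]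
    exact le_inf (le_inf (inf_le_left.trans inf_le_right) inf_le_right)
      (inf_le_left.trans inf_le_left)
  have hU2 : (C0 ⊓ A) ⊔ W = U := by
    rw [hU]
    apply le_antisymm
    · exact sup_le_sup_right inf_le_right W
    · refine sup_le ?_ le_sup_right
      calc A = (A ⊓ W) ⊔ C0 ⊓ A := hA.symm
        _ ≤ (C0 ⊓ A) ⊔ W := sup_le (inf_le_right.trans le_sup_right) le_sup_left
  have hd : Module.finrank F (C0 ⊓ A : Submodule F M) =
      Module.finrank F U - Module.finrank F W := by
    have h := Submodule.finrank_sup_add_finrank_inf_eq (C0 ⊓ A) W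
    rw [hU2, hCW, finrank_bot] at h
    omega
  let b := Module.finBasisOfFinrankEq F (C0 ⊓ A : Submodule F M) hd
  refine ⟨fun k => (b k : M), fun k => (b k).2.2, ?_⟩
  have hs : Submodule.span F (Set.range fun k => (b k : M)) = C0 ⊓ A := by
    have h1 : Set.range (fun k => (b k : M)) = (C0 ⊓ A).subtype '' Set.range b := by
      rw [← Set.range_comp]
      rfl
    rw [h1, Submodule.span_image, b.span_eq, Submodule.map_top, Submodule.range_subtype]
  rw [hs, hU2]

end Pool.Agent.PFC.B3.H24
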