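import Pool.Agent.PFC.StmtsB5a

/-!
# Squad PFC, block B5a, row OMZ
-/

open scoped BigOperators

noncomputable section

namespace Pool.Agent.PFC.B5a.H24

open Pool.Agent.PFC Pool.Agent.PFC.B5a

theorem omz : OmzStmt := by
  classical
  intro V Ω _ _ _ _ hst
  -- the stabilisers are diagonal
  have hdiag : ∀ (ω : Ω) (a b : V), ((a, b) : V × V) • ω = ω → a = b := by
    intro ω a b h
    obtain ⟨R, hR⟩ := hst ω
    have h1 : ((a, b) : V × V) ∈ MulAction.stabilizer (V × V) ω := h
    rw [hR, tw, Subgroup.mem_map] at h1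
    obtain ⟨r, _, hr⟩ := h1
    have h2 : r = a := congrArg Prod.fst hr
    have h3 : r = b := congrArg Prod.snd hr
    rw [← h2, h3]
  -- representatives of the orbits
  let rep : Ω → Ω := fun ω => (Quotient.mk'' ω : MulAction.orbitRel.Quotient (V × V) Ω).out
  have hrep : ∀ ω, ∃ g : V × V, g • rep ω = ω := by
    intro ω
    have h : (MulAction.orbitRel (V × V) Ω) (rep ω) ω := Quotient.mk_out ω
    obtain ⟨g, hg⟩ := h
    refine ⟨g⁻¹, ?_⟩
    rw [← hg, inv_smul_smul]
  have hreq : ∀ (g : V × V) (ω : Ω), rep (g • ω) = rep ω := by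
    intro g ω
    have h : (Quotient.mk'' (g • ω) : MulAction.orbitRel.Quotient (V × V) Ω) = Quotient.mk'' ω :=
      Quotient.sound' ⟨g, rfl⟩
    change (Quotient.mk'' (g • ω) : MulAction.orbitRel.Quotient (V × V) Ω).out = _
    rw [h]
  refine ⟨Finset.univ.filter fun ω => ∃ a : V, ((a, a) : V × V) • rep ω = ω, ?_, ?_⟩
  · intro g ω hω
    rw [Finset.mem_filter] at hω ⊢
    obtain ⟨_, a, ha⟩ := hω
    refine ⟨Finset.mem_univ _, g * a, ?_⟩
    rw [hreq]
    have : ((g * a, g * a) : V × V) = (g, g) * (a, a) := rfl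
    rw [this, mul_smul, ha]
  · intro M _ f
    rw [← Finset.sum_product' (f := fun ω h => f (((1, h) : V × V) • ω))]
    symm
    refine Finset.sum_bij (fun x _ => ((1, x.2) : V × V) • x.1) (fun _ _ => Finset.mem_univ _)
      ?_ ?_ (fun _ _ => rfl)
    · rintro ⟨ω, h⟩ hx ⟨ω', h'⟩ hx' he
      rw [Finset.mem_product, Finset.mem_filter] at hx hx'
      obtain ⟨⟨_, a, ha⟩, _⟩ := hx
      obtain ⟨⟨_, a', ha'⟩, _⟩ := hx'
      dsimp only at ha ha' he ⊢
      have hr : rep ω = rep ω' := by
        rw [← hreq (1, h) ω, he, hreq]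
      have e1 : ((((1, h') : V × V) * (a', a'))⁻¹ * ((1, h) * (a, a))) • rep ω' = rep ω' := by
        rw [mul_smul, inv_smul_eq_iff, mul_smul, mul_smul, ha', ← hr, ha, he]
      have e2 := hdiag (rep ω') (a'⁻¹ * a) ((h' * a')⁻¹ * (h * a)) (by
        have : ((a'⁻¹ * a, (h' * a')⁻¹ * (h * a)) : V × V) =
            (((1, h') : V × V) * (a', a'))⁻¹ * ((1, h) * (a, a)) := by
          simp only [Prod.mk_mul_mk, Prod.inv_mk, one_mul]
        rw [this]; exact e1)
      have hh : h = h' := by
        have e3 : a'⁻¹ * a = a'⁻¹ * (h'⁻¹ * (h * a)) := by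
          rw [e2, mul_inv_rev, mul_assoc]
        have e4 := mul_left_cancel e3
        rw [← mul_assoc] at e4
        have e5 : (1 : V) = h'⁻¹ * h := by
          have := e4
          nth_rewrite 1 [← one_mul a] at this
          exact mul_right_cancel this
        exact (inv_mul_eq_one.1 e5.symm).symm
      subst hh
      have hω : ω = ω' := smul_left_cancel _ he
      rw [hω]
    · intro ω' _
      obtain ⟨⟨a, b⟩, hg⟩ := hrep ω'
      refine ⟨(((a, a) : V × V) • rep ω', b * a⁻¹), ?_, ?_⟩
      · rw [Finset.mem_product, Finset.mem_filter]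
        refine ⟨⟨Finset.mem_univ _, a, ?_⟩, Finset.mem_univ _⟩
        have h2 : rep (((a, a) : V × V) • rep ω') = rep ω' := by
          have : rep ω' = rep (rep ω') := by
            conv_lhs => rw [← hg]
            rw [hreq]
          rw [hreq, ← this]
        rw [h2]
      · dsimp only
        rw [← mul_smul]
        have : ((1, b * a⁻¹) : V × V) * (a, a) = (a, b) := by
          simp only [Prod.mk_mul_mk, one_mul, inv_mul_cancel_right]
        rw [this, hg]

end Pool.Agent.PFC.B5a.H24
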