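import Pool.Agent.PFC.StmtsB6b
import Pool.Agent.Helper33_PP.Gal

/-!
# Squad PFC, block B6, row PIC
-/

open scoped BigOperators

noncomputable section

namespace Pool.Agent.PFC.H24

open Pool.Agent.Helper51_AWC Pool.Agent.Helper79_WRA Pool.Agent.PP Pool.Agent.PP.KF
open Pool.Agent.PP.K9 Pool.Agent.PP.K9.H97 Pool.Agent.PP.H75 Pool.Agent.PP.T3

/-- rank factorisation of an idempotent matrix -/
theorem rank_fact {F : Type} [Field F] {N : ℕ} (P : Matrix (Fin N) (Fin N) F) (hP : P * P = P) :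
    ∃ (n : ℕ) (Y : Matrix (Fin N) (Fin n) F) (X : Matrix (Fin n) (Fin N) F),
      Y * X = P ∧ X * Y = 1 := by
  classical
  let f := Matrix.toLin' P
  have hf : f ∘ₗ f = f := by
    rw [← Matrix.toLin'_mul, hP]
  let R := LinearMap.range f
  let b := Module.finBasis F R
  let g : (Fin N → F) →ₗ[F] R := f.rangeRestrict
  let i : R →ₗ[F] (Fin N → F) := R.subtype
  have h1 : i ∘ₗ g = f := LinearMap.ext fun x => rfl
  have h2 : g ∘ₗ i = LinearMap.id := by
    ext ⟨x, y, rfl⟩ : 2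
    exact LinearMap.congr_fun hf y
  refine ⟨_, LinearMap.toMatrix b (Pi.basisFun F (Fin N)) i,
    LinearMap.toMatrix (Pi.basisFun F (Fin N)) b g, ?_, ?_⟩
  · rw [← LinearMap.toMatrix_comp, h1, LinearMap.toMatrix_eq_toMatrix', LinearMap.toMatrix'_toLin']
  · rw [← LinearMap.toMatrix_comp, h2, LinearMap.toMatrix_id]

theorem pic : PicStmt := by
  intro F _ H _ _ N ρ hρ j hj htr hnil
  have hP : ev ρ j * ev ρ j = ev ρ j := by rw [← ev_mulF, hj]
  obtain ⟨n, Y, X, hYX, hXY⟩ := rank_fact (ev ρ j) hP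
  have hn : (ev ρ j).trace = (n : F) := by
    rw [← hYX, Matrix.trace_mul_comm, hXY, Matrix.trace_one, Fintype.card_fin]
  let π : (H → F) →ₗ[F] Matrix (Fin n) (Fin n) F :=
    { toFun := fun a => X * ev ρ a * Y
      map_add' := by
        intro a b
        rw [ev_add, Matrix.mul_add, Matrix.add_mul]
      map_smul' := by
        intro c a
        rw [ev_smul, Matrix.mul_smul, Matrix.smul_mul, RingHom.id_apply] }
  have hπ : ∀ a, π a = X * ev ρ a * Y := fun a => rfl
  refine ⟨n, π, ?_⟩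
  constructor
  · refine Nat.pos_of_ne_zero fun h0 => htr ?_
    rw [hn, h0, Nat.cast_zero]
  · rw [← hn]; exact htr
  · rw [hπ, ← hYX]
    calc X * (Y * X) * Y = (X * Y) * (X * Y) := by simp only [Matrix.mul_assoc]
      _ = 1 := by rw [hXY, Matrix.one_mul]
  · intro a b _ ha2 _ _
    rw [hπ, hπ, hπ, ev_mulF]
    have h : ev ρ a * (Y * X) = ev ρ a := by rw [hYX, ← ev_mulF, ha2]
    calc X * (ev ρ a * ev ρ b) * Y = X * ((ev ρ a * (Y * X)) * ev ρ b) * Y := by rw [h]
      _ = X * ev ρ a * Y * (X * ev ρ b * Y) := by simp only [Matrix.mul_assoc]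
  · intro B
    obtain ⟨x, hx⟩ := Pool.Agent.PP.H33.ev_surj hρ (Y * B * X)
    refine ⟨mulF j (mulF x j), ?_, ?_, ?_⟩
    · rw [← mulF_assoc, hj]
    · rw [mulF_assoc, mulF_assoc, hj]
    · rw [hπ, ev_mulF, ev_mulF, hx, ← hYX]
      calc X * (Y * X * (Y * B * X * (Y * X))) * Y
          = (X * Y) * (X * Y) * B * (X * Y) * (X * Y) := by simp only [Matrix.mul_assoc]
        _ = B := by rw [hXY]; simp only [Matrix.one_mul, Matrix.mul_one]
  · intro a ha1 ha2 ha
    refine hnil a ha1 ha2 ?_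
    rw [hπ] at ha
    have h1 : ev ρ a = (Y * X) * ev ρ a := by rw [hYX, ← ev_mulF, ha1]
    have h2 : ev ρ a = ev ρ a * (Y * X) := by rw [hYX, ← ev_mulF, ha2]
    calc ev ρ a = (Y * X) * (ev ρ a * (Y * X)) := by rw [← h2]; exact h1
      _ = Y * (X * ev ρ a * Y) * X := by simp only [Matrix.mul_assoc]
      _ = 0 := by rw [ha, Matrix.mul_zero, Matrix.zero_mul]

end Pool.Agent.PFC.H24
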