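import Pool.Agent.PFC.StmtsB4b

/-!
# Squad PFC, block B4b, row QLU
-/

open scoped BigOperators TensorProduct

noncomputable section

namespace Pool.Agent.PFC.H24

open Pool.Agent.PFC

section ring

variable {R : Type} [Ring R]

theorem pow_mul_swap (a b : R) (k : ℕ) : (a * b) ^ (k + 1) = a * (b * a) ^ k * b := by
  induction k with
  | zero => rw [zero_add, pow_one, pow_zero, mul_one]
  | succ k ih =>
    rw [pow_succ, ih, pow_succ]
    simp only [mul_assoc]

theorem nilp_swap {a b : R} (h : IsNilpotent (b * a)) : IsNilpotent (a * b) := by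
  obtain ⟨k, hk⟩ := h
  exact ⟨k + 1, by rw [pow_mul_swap, hk, mul_zero, zero_mul]⟩

theorem prod_aux (e f g h : R) (he : e * e = e) (hg : g * g = g) (hf : f * f = f)
    (hh : h * h = h) (hfh : f * h = 0) (hhf : h * f = 0) (h1 : e + g = 1) (h2 : f + h = 1) :
    (e * f + g * h) * (f * e + h * g) = 1 - (e * h * e + g * f * g) := by
  have e1 : (e * f + g * h) * (f * e + h * g) =
      e * (f * f) * e + e * (f * h) * g + g * (h * f) * e + g * (h * h) * g := by
    noncomm_ring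
  have e2 : e * (f + h) * e + g * (f + h) * g = 1 := by
    rw [h2, mul_one, mul_one, he, hg, h1]
  rw [e1, hf, hh, hfh, hhf, ← e2]
  noncomm_ring

/-- the units which conjugate two idempotents with nilpotent differences in the corners -/
theorem unit_aux (e f : R) (he : e * e = e) (hf : f * f = f)
    (n1 : IsNilpotent (e * (1 - f) * e)) (n2 : IsNilpotent (f * (1 - e) * f)) :
    IsUnit ((1 - (e * (1 - f) * e + (1 - e) * f * (1 - e)) : R)) := by
  have hg : (1 - e) * (1 - e) = 1 - e := by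
    rw [mul_sub, mul_one, sub_mul, one_mul, he, sub_self, sub_zero]
  have hge : (1 - e) * e = 0 := by rw [sub_mul, one_mul, he, sub_self]
  have heg : e * (1 - e) = 0 := by rw [mul_sub, mul_one, he, sub_self]
  have n3 : IsNilpotent ((1 - e) * f * (1 - e)) := by
    have h1 : (1 - e) * f * (1 - e) = ((1 - e) * f) * (f * (1 - e)) := by
      rw [mul_assoc ((1 - e)) f (f * (1 - e)), ← mul_assoc f f, hf, mul_assoc]
    rw [h1]
    apply nilp_swap
    have h2 : f * (1 - e) * ((1 - e) * f) = f * (1 - e) * f := by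
      rw [mul_assoc, ← mul_assoc (1 - e) (1 - e) f, hg, mul_assoc]
    rw [h2]
    exact n2
  have c1 : e * (1 - f) * e * ((1 - e) * f * (1 - e)) = 0 := by
    rw [mul_assoc (e * (1 - f)) e, ← mul_assoc e, ← mul_assoc e, heg, zero_mul, zero_mul, mul_zero]
  have c2 : (1 - e) * f * (1 - e) * (e * (1 - f) * e) = 0 := by
    rw [mul_assoc ((1 - e) * f) (1 - e), ← mul_assoc (1 - e), ← mul_assoc (1 - e), hge, zero_mul,
      zero_mul, mul_zero]
  have hc : Commute (e * (1 - f) * e) ((1 - e) * f * (1 - e)) := by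
    rw [commute_iff_eq, c1, c2]
  exact (hc.isNilpotent_add n1 n3).isUnit_one_sub

theorem conj_aux (e f : R) (he : e * e = e) (hf : f * f = f)
    (n1 : IsNilpotent (e * (1 - f) * e)) (n2 : IsNilpotent (f * (1 - e) * f)) :
    IsUnit (f * e + (1 - f) * (1 - e)) := by
  have hg : (1 - e) * (1 - e) = 1 - e := by
    rw [mul_sub, mul_one, sub_mul, one_mul, he, sub_self, sub_zero]
  have hh : (1 - f) * (1 - f) = 1 - f := by
    rw [mul_sub, mul_one, sub_mul, one_mul, hf, sub_self, sub_zero]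
  have hge : (1 - e) * e = 0 := by rw [sub_mul, one_mul, he, sub_self]
  have heg : e * (1 - e) = 0 := by rw [mul_sub, mul_one, he, sub_self]
  have hhf : (1 - f) * f = 0 := by rw [sub_mul, one_mul, hf, sub_self]
  have hfh : f * (1 - f) = 0 := by rw [mul_sub, mul_one, hf, sub_self]
  have u1 : IsUnit ((e * f + (1 - e) * (1 - f)) * (f * e + (1 - f) * (1 - e))) := by
    rw [prod_aux e f (1 - e) (1 - f) he hg hf hh hfh hhf (add_sub_cancel e 1)
      (add_sub_cancel f 1)]
    exact unit_aux e f he hf n1 n2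
  have u2 : IsUnit ((f * e + (1 - f) * (1 - e)) * (e * f + (1 - e) * (1 - f))) := by
    rw [prod_aux f e (1 - f) (1 - e) hf hh he hg heg hge (add_sub_cancel f 1)
      (add_sub_cancel e 1)]
    exact unit_aux f e hf he n2 n1
  obtain ⟨a, ha⟩ := u1
  obtain ⟨c, hc⟩ := u2
  set u := f * e + (1 - f) * (1 - e) with hu
  set v := e * f + (1 - e) * (1 - f) with hv
  have l1 : ((a⁻¹ : Rˣ) : R) * v * u = 1 := by
    rw [mul_assoc, ← ha, Units.inv_mul]
  have r1 : u * (v * ((c⁻¹ : Rˣ) : R)) = 1 := by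
    rw [← mul_assoc, ← hc, Units.mul_inv]
  have l2 : v * ((c⁻¹ : Rˣ) : R) * u = 1 := by
    rw [← left_inv_eq_right_inv l1 r1]; exact l1
  exact ⟨⟨u, v * ((c⁻¹ : Rˣ) : R), r1, l2⟩, rfl⟩

end ring

theorem qlu : QluStmt := by
  intro F V _ _ X b j j' hb hj hj'
  have hone : (1 : X.A) ∈ Fx (cj F X.ι) ⊤ := by
    intro v _
    change X.ι v * (1 * X.ι v⁻¹) = 1
    rw [one_mul, ← map_mul, mul_inv_cancel, map_one]
  have hcomm : ∀ x ∈ Fx (cj F X.ι) ⊤, ∀ v, X.ι v * x = x * X.ι v := by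
    intro x hx v
    have h := hx v (Subgroup.mem_top v)
    change X.ι v * (x * X.ι v⁻¹) = x at h
    calc X.ι v * x = X.ι v * (x * X.ι v⁻¹) * X.ι v := by
          rw [mul_assoc, mul_assoc, ← map_mul, inv_mul_cancel, map_one, mul_one]
      _ = x * X.ι v := by rw [h]
  have hmulF : ∀ x ∈ Fx (cj F X.ι) ⊤, ∀ y ∈ Fx (cj F X.ι) ⊤, x * y ∈ Fx (cj F X.ι) ⊤ := by
    intro x hx y hy v _
    change X.ι v * (x * y * X.ι v⁻¹) = x * y
    rw [mul_assoc x y, ← hcomm y hy v⁻¹, ← mul_assoc, ← mul_assoc, hcomm x hx v, mul_assoc x,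
      ← map_mul, mul_inv_cancel, map_one, mul_one]
  have hsub : ∀ x ∈ Fx (cj F X.ι) ⊤, 1 - x ∈ Fx (cj F X.ι) ⊤ := fun x hx =>
    Submodule.sub_mem _ hone hx
  have hn : ∀ i i' : X.A, Loc X b i → Loc X b i' → IsNilpotent (i * (1 - i') * i) := by
    intro i i' h h'
    refine h.nil _ (hsub _ h'.fx) ?_
    have h1 : b (1 - i') = 0 := by rw [map_sub, hb.one, h'.bj, sub_self]
    rw [hb.mul _ (hmulF _ h.fx _ (hsub _ h'.fx)) _ h.fx, hb.mul _ h.fx _ (hsub _ h'.fx), h1,
      mul_zero, zero_mul]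
  obtain ⟨u, hu⟩ := conj_aux j j' hj.id hj'.id (hn j j' hj hj') (hn j' j hj' hj)
  refine ⟨u, fun v => ?_, ?_⟩
  · have : j' * j + (1 - j') * (1 - j) ∈ Fx (cj F X.ι) ⊤ :=
      Submodule.add_mem _ (hmulF _ hj'.fx _ hj.fx)
        (hmulF _ (hsub _ hj'.fx) _ (hsub _ hj.fx))
    rw [hu, hcomm _ this v]
  · rw [hu, add_mul, mul_add, mul_assoc, hj.id, mul_assoc (1 - j'), sub_mul 1 j j, one_mul, hj.id,
      sub_self, mul_zero, ← mul_assoc j' j' j, hj'.id, ← mul_assoc j' (1 - j'), mul_sub j' 1 j',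
      mul_one, hj'.id, sub_self, zero_mul]

end Pool.Agent.PFC.H24
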